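import Mathlib

set_option autoImplicit false

namespace Pool.Agent.H.MP_52e257_al

variable {F A : Type} [Field F] [AddCommGroup A] [Module F A]

def IsSimpleAlg (m : A →ₗ[F] A →ₗ[F] A) : Prop :=
  (∃ x y, m x y ≠ 0) ∧
    ∀ I : Submodule F A, (∀ x ∈ I, ∀ y, m x y ∈ I ∧ m y x ∈ I) → I = ⊥ ∨ I = ⊤

def assoc (m : A →ₗ[F] A →ₗ[F] A) (x y z : A) : A := m (m x y) z - m x (m y z)

def IsNCJordan (m : A →ₗ[F] A →ₗ[F] A) : Prop :=
  (∀ x y, assoc m x y x = 0) ∧ ∀ x y, assoc m (m x x) y x = 0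

def CommIdentity (m : A →ₗ[F] A →ₗ[F] A) : Prop :=
  ∀ x y, assoc m (m x y - m y x) y y = 0

def IsAlternative (m : A →ₗ[F] A →ₗ[F] A) : Prop :=
  ∀ x y, assoc m x x y = 0 ∧ assoc m y x x = 0

def IsJordanAlg (m : A →ₗ[F] A →ₗ[F] A) : Prop :=
  (∀ x y, m x y = m y x) ∧ ∀ x y, assoc m (m x x) y x = 0

end Pool.Agent.H.MP_52e257_al
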