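import Mathlib

set_option autoImplicit false

namespace Pool.Agent.H.MP_52e257_al

def mu (x y : Fin 7 → ℝ) : Fin 7 → ℝ :=
  ![x 0 * y 0 - (x 1 * y 1 + x 2 * y 2 + x 3 * y 3 + x 4 * y 4 + x 5 * y 5 + x 6 * y 6),
    x 0 * y 1 + y 0 * x 1 + (x 2 * y 3 - x 3 * y 2) - (x 5 * y 6 - x 6 * y 5),
    x 0 * y 2 + y 0 * x 2 + (x 3 * y 1 - x 1 * y 3) - (x 6 * y 4 - x 4 * y 6),
    x 0 * y 3 + y 0 * x 3 + (x 1 * y 2 - x 2 * y 1) - (x 4 * y 5 - x 5 * y 4),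
    x 0 * y 4 + y 0 * x 4 - (x 2 * y 6 - x 3 * y 5) - (x 5 * y 3 - x 6 * y 2),
    x 0 * y 5 + y 0 * x 5 - (x 3 * y 4 - x 1 * y 6) - (x 6 * y 1 - x 4 * y 3),
    x 0 * y 6 + y 0 * x 6 - (x 1 * y 5 - x 2 * y 4) - (x 4 * y 2 - x 5 * y 1)]

noncomputable def m : (Fin 7 → ℝ) →ₗ[ℚ] (Fin 7 → ℝ) →ₗ[ℚ] Fin 7 → ℝ :=
  LinearMap.mk₂ ℚ mu
    (fun x y z => by ext i; fin_cases i <;> simp [mu] <;> ring)
    (fun c x y => by ext i; fin_cases i <;> simp [mu, Rat.smul_def] <;> ring)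
    (fun x y z => by ext i; fin_cases i <;> simp [mu] <;> ring)
    (fun c x y => by ext i; fin_cases i <;> simp [mu, Rat.smul_def] <;> ring)

lemma m_apply (x y : Fin 7 → ℝ) : m x y = mu x y := rfl

lemma flex (x y : Fin 7 → ℝ) : m (m x y) x = m x (m y x) := by
  ext i; fin_cases i <;> simp [m_apply, mu] <;> ring

lemma jordan (x y : Fin 7 → ℝ) : m (m (m x x) y) x = m (m x x) (m y x) := by
  ext i; fin_cases i <;> simp [m_apply, mu] <;> ring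

lemma ident (x y : Fin 7 → ℝ) : m (m (m x y - m y x) y) y = m (m x y - m y x) (m y y) := by
  simp only [m_apply]
  ext i; fin_cases i <;> simp [mu] <;> ring

lemma not_alt : ¬ ∀ x y, m (m x x) y = m x (m x y) ∧ m (m y x) x = m y (m x x) := fun h => by
  have := congrFun (h (Pi.single 1 1) (Pi.single 4 1)).1 4
  simp [m_apply, mu] at this

lemma not_comm : ¬ ∀ x y, m x y = m y x := fun h => by
  have := congrFun (h (Pi.single 1 1) (Pi.single 2 1)) 3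
  simp [m_apply, mu] at this
  norm_num at this

lemma simple (I : Submodule ℚ (Fin 7 → ℝ)) (h : ∀ x ∈ I, ∀ y, m x y ∈ I ∧ m y x ∈ I) :
    I = ⊥ ∨ I = ⊤ := by
  rw [or_iff_not_imp_left]
  intro hI
  obtain ⟨x, hx, h0⟩ := (Submodule.ne_bot_iff I).1 hI
  have hn : ∑ i, x i ^ 2 ≠ 0 := fun e => h0 (funext fun i => pow_eq_zero_iff two_ne_zero |>.1
    ((Finset.sum_eq_zero_iff_of_nonneg fun i _ => sq_nonneg (x i)).1 e i (Finset.mem_univ i)))
  refine top_unique fun y _ => ?_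
  have := (h _ (h x hx ![x 0, -x 1, -x 2, -x 3, -x 4, -x 5, -x 6]).1 ((∑ i, x i ^ 2)⁻¹ • y)).1
  convert this using 1
  have e : ∀ z : Fin 7 → ℝ, m (m x ![x 0, -x 1, -x 2, -x 3, -x 4, -x 5, -x 6]) z =
      (∑ i, x i ^ 2) • z := fun z => by
    ext i; fin_cases i <;> simp [m_apply, mu, Fin.sum_univ_succ] <;> ring
  rw [e, smul_smul, mul_inv_cancel₀ hn, one_smul]

lemma not_fin : ¬ Module.Finite ℚ (Fin 7 → ℝ) := fun h => by
  haveI : Countable (Fin 7 → ℝ) := Finsupp.Countable.of_moduleFinite (R := ℚ)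
  exact not_countable (α := ℝ) ((Function.surjective_eval 0 (β := fun _ : Fin 7 => ℝ)).countable)

end Pool.Agent.H.MP_52e257_al
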